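import Mathlib
import Pool.Agent.H429Z.Ran.Main

set_option autoImplicit false

namespace Pool.Agent.Results.MP_2e2259_an.AMonteCarloLoss

open Pool.Agent.Helper150.Iid Pool.Agent.H429Z.Ran

/-- Independent uniformly distributed points are not optimal for the Monte Carlo error of
integration on `H^{k,mix}(𝕋²)`, `1/2 < k < 1`: infinitely often they lose at least the factor
`(log n)^θ`, for every `θ < k - 1/2`; so the ratio of the two errors is unbounded and the answer
to Q1 is negative. This holds for every class `Adm` of admissible algorithms that contains the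
jointly measurable ones (for example all algorithms, or exactly the jointly measurable ones). -/
theorem result (Adm : ∀ d n : ℕ, RandAlg d n → Prop)
    (hAdm : ∀ (d n : ℕ) (A : RandAlg d n), MeasAlg A → Adm d n A)
    (k : ℝ) (hk : 1 / 2 < k) (hk1 : k < 1) (θ : ℝ) (hθ : θ < k - 1 / 2) (n₀ : ℕ) :
    ∃ n : ℕ, n₀ ≤ n ∧
      ENNReal.ofReal ((Real.log n) ^ θ) * ranOpt Adm 2 k n < ranIid Adm 2 k n :=
  ratio_ran Adm hAdm k hk hk1 θ hθ n₀

end Pool.Agent.Results.MP_2e2259_an.AMonteCarloLoss
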